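import Pool.Agent.Helper62.NT.Goals

/-!
# Project NT: packet NT-NUM, the doubling inequality
-/

set_option autoImplicit false

namespace Pool.Agent.Helper98.NT.NUM

open Pool.Agent.Helper62.NT Finset

theorem t : S_NUM := by
  intro D θ s w hD h0 htri hz h1 hlow
  have key : ∀ j : ℕ, ∀ m : ℕ, m + 2 ^ j ≤ 2 ^ s →
      ∑ i ∈ Icc (1 : ℕ) (2 ^ s), w i m (m + 2 ^ j) ^ 2 ≤ 4 ^ j * (D ^ 2 - j * θ ^ 2 / 4) := by
    intro j
    induction j with
    | zero =>
      intro m hm
      have := h1 m hm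
      simpa using this
    | succ j ih =>
      intro m hm
      obtain ⟨l, hl⟩ : ∃ l, l = 2 ^ j := ⟨_, rfl⟩
      have hl2 : 2 ^ (j + 1) = l + l := by rw [hl, pow_succ]; ring
      have hlpos : 0 < l := by rw [hl]; positivity
      rw [hl2] at hm ⊢
      have ih1 := ih m (by rw [← hl]; omega)
      have ih2 := ih (m + l) (by rw [← hl]; omega)
      rw [← hl] at ih1 ih2
      rw [add_assoc] at ih2
      have hsub : Ioc (m + l) (m + (l + l)) ⊆ Icc 1 (2 ^ s) := by
        intro i hi
        rw [mem_Ioc] at hi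
        rw [mem_Icc]
        omega
      have hlo := hlow (m + l) (m + (l + l)) (by omega) hm
      have hcast : ((m + (l + l) : ℕ) : ℝ) - ((m + l : ℕ) : ℝ) = l := by push_cast; ring
      rw [hcast] at hlo
      have hpt : ∀ i ∈ Icc (1 : ℕ) (2 ^ s), w i m (m + (l + l)) ^ 2 +
          (if i ∈ Ioc (m + l) (m + (l + l)) then w i (m + l) (m + (l + l)) ^ 2 else 0) ≤
          2 * w i m (m + l) ^ 2 + 2 * w i (m + l) (m + (l + l)) ^ 2 := by
        intro i _
        have h3 := htri i m (m + l) (m + (l + l)) (by omega) (by omega) hm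
        have h4 := h0 i m (m + (l + l))
        have h5 := h0 i m (m + l)
        have h6 := h0 i (m + l) (m + (l + l))
        split_ifs with hi
        · rw [mem_Ioc] at hi
          rw [hz i m (m + l) (by omega) hi.1] at h3 ⊢
          nlinarith
        · nlinarith [sq_nonneg (w i m (m + l) - w i (m + l) (m + (l + l)))]
      have hsum := sum_le_sum hpt
      rw [sum_add_distrib, sum_add_distrib, ← mul_sum, ← mul_sum, ← sum_filter,
        filter_mem_eq_inter, inter_eq_right.2 hsub] at hsum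
      have hl4 : (l : ℝ) ^ 2 = 4 ^ j := by
        rw [hl]
        push_cast
        rw [← pow_mul, mul_comm, pow_mul]
        norm_num
      rw [hl4] at hlo
      have hgoal : (4 : ℝ) ^ (j + 1) * (D ^ 2 - ((j + 1 : ℕ) : ℝ) * θ ^ 2 / 4) =
          2 * (4 ^ j * (D ^ 2 - j * θ ^ 2 / 4)) + 2 * (4 ^ j * (D ^ 2 - j * θ ^ 2 / 4)) -
            θ ^ 2 * 4 ^ j := by
        push_cast
        rw [pow_succ]
        ring
      rw [hgoal]
      linarith
  have hfin := key s 0 (by omega)
  have hpos : (0 : ℝ) ≤ ∑ i ∈ Icc (1 : ℕ) (2 ^ s), w i 0 (0 + 2 ^ s) ^ 2 :=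
    sum_nonneg fun i _ => sq_nonneg _
  have h4 : (0 : ℝ) < 4 ^ s := by positivity
  have hneg : D ^ 2 - s * θ ^ 2 / 4 < 0 := by linarith
  have := mul_neg_of_pos_of_neg h4 hneg
  linarith

end Pool.Agent.Helper98.NT.NUM
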